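import Pool.Agent.Helper63.Clust.Plug

/-!
# Finite mean in hypothesis (H) is possible (MP_81329c_pr, Q1: disproved)

The definitions (`Site`, `lattice`, `nbhd`, `maximisers`, `move`, `step`, `IsClustering`,
`TranslationInvariant`, `OneEnded`, `IsParent`, `HypothesisH`) are in
`Pool/Agent/Helper99/Clust/Defs.lean`.
-/

open MeasureTheory Set
open scoped ENNReal

open Pool.Agent.Helper99.Clust

namespace Pool.Agent.Results.MP_81329c_pr.FiniteMean

/-- For `d = 3` there is a translation-invariant initial configuration and a clustering dynamics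
started from it that satisfies hypothesis (H) and has `E[C_0(x)] < ∞` for every `x`; moreover
every site is eventually empty. -/
theorem result : ∃ (Ω : Type) (_ : MeasurableSpace Ω) (P : Measure Ω)
    (C : ℕ → Ω → Site 3 → ℝ≥0∞) (v : ℕ → Ω → Site 3 → Site 3),
    IsProbabilityMeasure P ∧ IsClustering P C v ∧ TranslationInvariant P (C 0) ∧
      HypothesisH P C v ∧ (∀ x, ∫⁻ ω, C 0 ω x ∂P < ∞) ∧
        ∀ᵐ ω ∂P, ∀ x, ∃ N, ∀ n ≥ N, C n ω x = 0 :=
  Tower.final Helper63.Clust.tower Helper63.Clust.hbad Helper63.Clust.hB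

end Pool.Agent.Results.MP_81329c_pr.FiniteMean
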